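import Mathlib

namespace Pool.Agent.Results.MP_2d2d9d_co.All

open Set Metric Equiv

abbrev E := EuclideanSpace ℝ (Fin 2)

/-- A countable family of closed sets that covers the plane, with pairwise disjoint interiors. -/
def Tiling (T : Set (Set E)) : Prop :=
  T.Countable ∧ (∀ A ∈ T, IsClosed A) ∧ ⋃₀ T = univ ∧
    T.Pairwise fun A B => Disjoint (interior A) (interior B)

/-- The isometry `f` maps the family `T` onto itself. -/
def Sym (T : Set (Set E)) (f : E ≃ᵢ E) : Prop := (fun C => f '' C) '' T = T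

/-- The tile `A` is the union of `k` pairwise disjoint closed disks, which fall into exactly `t`
classes under the symmetries of `T` that map `A` onto itself. -/
def Cl (T : Set (Set E)) (k t : ℕ) (A : Set E) : Prop :=
  ∃ C : Fin k → Set E, (∀ i, Nonempty (C i ≃ₜ closedBall (0 : E) 1)) ∧
    (∀ i j, i ≠ j → Disjoint (C i) (C j)) ∧ A = ⋃ i, C i ∧
    ∃ c : Fin k → Fin t, c.Surjective ∧
      ∀ i j, c i = c j ↔ ∃ f, Sym T f ∧ f '' A = A ∧ f '' C i = C j

/-- A `t`-class `k`-component tiling. -/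
def ClassTiling (k t : ℕ) (T : Set (Set E)) : Prop :=
  Tiling T ∧ (∀ A ∈ T, ∀ B ∈ T, ∃ f, Sym T f ∧ f '' A = B) ∧ ∀ A ∈ T, Cl T k t A

theorem Sym.trans {T : Set (Set E)} {f g : E ≃ᵢ E} (a : Sym T f) (b : Sym T g) :
    Sym T (f.trans g) := by
  have := congrArg (fun T => (fun C => g '' C) '' T) a
  simp only [image_image] at this
  exact this.trans b

theorem Sym.symm {T : Set (Set E)} {f : E ≃ᵢ E} (a : Sym T f) : Sym T f.symm := by
  have := congrArg (fun T => (fun C => f.symm '' C) '' T) a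
  simp only [image_image, f.symm_apply_apply, image_id'] at this
  exact this.symm

theorem Cl.map {T : Set (Set E)} {k t : ℕ} {A : Set E} (h : Cl T k t A) {g : E ≃ᵢ E}
    (s : Sym T g) : Cl T k t (g '' A) := by
  obtain ⟨C, a, b, e, c, hc, h⟩ := h
  refine ⟨fun i => g '' C i, fun i => ⟨(g.toHomeomorph.image _).symm.trans (a i).some⟩,
    fun i j ne => (disjoint_image_iff g.injective).mpr (b i j ne), by rw [e, image_iUnion], c, hc,
    fun i j => (h i j).trans ⟨fun ⟨f, p, q, r⟩ => ⟨g.symm.trans (f.trans g), s.symm.trans (p.trans s),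
      ?_, ?_⟩, fun ⟨f, p, q, r⟩ => ⟨g.trans (f.trans g.symm), s.trans (p.trans s.symm), ?_, ?_⟩⟩⟩
  · conv_rhs => rw [← q]
    simp [image_image]
  · simp [← r, image_image]
  · have := congrArg (g.symm '' ·) q
    simp only [image_image, g.symm_apply_apply, image_id'] at this
    exact this
  · have := congrArg (g.symm '' ·) r
    simp only [image_image, g.symm_apply_apply, image_id'] at this
    exact this

noncomputable def co (p : E) : Fin 3 → ℝ := ![p 0 - p 1 / √3, 2 * p 1 / √3, -p 0 - p 1 / √3]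

noncomputable def pt (x : Fin 3 → ℝ) : E := !₂[x 0 + x 1 / 2, √3 / 2 * x 1]

theorem co_sum (p : E) : co p 0 + co p 1 + co p 2 = 0 := by simp [co]; ring

theorem co_pt {x : Fin 3 → ℝ} (h : x 0 + x 1 + x 2 = 0) : co (pt x) = x := by
  have : √3 ≠ 0 := by positivity
  ext i
  fin_cases i <;> simp [co, pt] <;> field_simp <;> linarith

theorem pt_co (p : E) : pt (co p) = p := by
  have : √3 ≠ 0 := by positivity
  ext i
  fin_cases i <;> simp [co, pt] <;> field_simp
  ring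

theorem co_add (p q : E) : co (p + q) = co p + co q := by
  ext i
  fin_cases i <;> simp [co] <;> ring

theorem co_sub (p q : E) : co (p - q) = co p - co q := by
  ext i
  fin_cases i <;> simp [co] <;> ring

theorem nsq (p : E) : 2 * ‖p‖ ^ 2 = ∑ i, co p i ^ 2 := by
  have : √3 ≠ 0 := by positivity
  have h : √3 ^ 2 = 3 := Real.sq_sqrt (by norm_num)
  rw [EuclideanSpace.norm_sq_eq]
  simp [Fin.sum_univ_three, co]
  field_simp
  ring_nf
  rw [h]
  ring

theorem psum (σ : Perm (Fin 3)) {R : Type} [AddCommMonoid R] (x : Fin 3 → R) :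
    x (σ 0) + x (σ 1) + x (σ 2) = x 0 + x 1 + x 2 := by
  simpa only [Fin.sum_univ_three] using Equiv.sum_comp σ x

abbrev H := Perm (Fin 3) × ℤˣ

noncomputable def F0 (h : H) (p : E) : E := pt fun i => (h.2 : ℤ) * co p (h.1 i)

theorem co_F0 (h : H) (p : E) (i : Fin 3) : co (F0 h p) i = (h.2 : ℤ) * co p (h.1 i) := by
  rw [F0, co_pt]
  rw [← mul_add, ← mul_add, psum, co_sum, mul_zero]

theorem co_inj {p q : E} (h : ∀ i, co p i = co q i) : p = q := by rw [← pt_co p, funext h, pt_co]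

theorem F0_F0 (h g : H) (p : E) : F0 h (F0 g p) = F0 (g * h) p :=
  co_inj fun i => by simp [co_F0]; ring

theorem F0_sub (h : H) (p q : E) : F0 h (p - q) = F0 h p - F0 h q :=
  co_inj fun i => by simp [co_F0, co_sub]; ring

theorem F0_norm (h : H) (p : E) : ‖F0 h p‖ = ‖p‖ := by
  have a := nsq (F0 h p)
  have : ((h.2 : ℤ) : ℝ) ^ 2 = 1 := by rcases Int.units_eq_one_or h.2 with e | e <;> simp [e]
  simp only [co_F0, mul_pow, this, one_mul] at a
  rw [Equiv.sum_comp h.1 fun i => co p i ^ 2, ← nsq] at a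
  exact (pow_left_inj₀ (by positivity) (by positivity) two_ne_zero).mp (by linarith)

noncomputable def F (h : H) : E ≃ᵢ E :=
  IsometryEquiv.mk' (F0 h) (F0 h⁻¹) (fun p => by rw [F0_F0]; exact co_inj fun i => by simp [co_F0])
    (Isometry.of_dist_eq fun p q => by rw [dist_eq_norm, ← F0_sub, F0_norm, dist_eq_norm])

theorem chamber {x y : Fin 3 → ℝ} (h : H) (e : ∀ i, y i = (h.2 : ℤ) * x (h.1 i))
    (s : x 0 + x 1 + x 2 = 0) (a : 0 < x 1) (b : x 1 < x 0) (c : 0 ≤ y 1) (d : y 1 ≤ y 0) :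
    h = 1 := by
  obtain ⟨σ, ε⟩ := h
  have : ∀ σ : Perm (Fin 3), σ = 1 ∨ (σ 0 = 0 ∧ σ 1 = 2) ∨ (σ 0 = 1 ∧ σ 1 = 0) ∨
    (σ 0 = 1 ∧ σ 1 = 2) ∨ (σ 0 = 2 ∧ σ 1 = 0) ∨ (σ 0 = 2 ∧ σ 1 = 1) := by decide
  rw [e] at c
  rw [e, e] at d
  rcases Int.units_eq_one_or ε with rfl | rfl <;>
    rcases this σ with rfl | ⟨u, v⟩ | ⟨u, v⟩ | ⟨u, v⟩ | ⟨u, v⟩ | ⟨u, v⟩
  · rfl
  all_goals first | simp [u, v] at c d | simp at c d
  all_goals linarith

def Gen (p : E) : Prop := ∀ a b n : ℤ, (a ≠ 0 ∨ b ≠ 0) → a * co p 0 + b * co p 1 ≠ n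

theorem gen : Dense {p | Gen p} := by
  have : {p | Gen p} = ⋂ v : {v : ℤ × ℤ × ℤ // v.1 ≠ 0 ∨ v.2.1 ≠ 0},
      (fun p => v.1.1 * co p 0 + v.1.2.1 * co p 1) ⁻¹' {(v.1.2.2 : ℝ)}ᶜ := by
    ext p
    simp only [Gen, mem_iInter, Subtype.forall, Prod.forall]
    rfl
  rw [this]
  refine dense_iInter_of_isOpen (fun v => isOpen_compl_singleton.preimage ?_) ?_
  · simp only [co, Matrix.cons_val_zero, Matrix.cons_val_one]
    fun_prop
  · rintro ⟨⟨a, b, n⟩, h⟩
    let f : E →L[ℝ] ℝ := (a : ℝ) • EuclideanSpace.proj 0 +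
      ((2 * b - a) / √3 : ℝ) • EuclideanSpace.proj 1
    have e : (fun p => a * co p 0 + b * co p 1) = f := by
      ext p
      simp [f, co]
      ring
    refine (dense_compl_singleton _).preimage (e ▸ f.isOpenMap_of_ne_zero fun z => ?_)
    have x := congrFun e (pt ![1, 0, -1])
    have y := congrFun e (pt ![0, 1, -1])
    rw [co_pt (by simp), z] at x y
    simp at x y h
    tauto

theorem Gen.ne {p : E} (h : Gen p) {i j : Fin 3} (ij : i ≠ j) {a b : ℤ} (ab : a ≠ 0 ∨ b ≠ 0) (n : ℤ) :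
    a * co p i + b * co p j ≠ n := by
  have s : co p 2 = -co p 0 - co p 1 := by linarith [co_sum p]
  intro e
  fin_cases i <;> fin_cases j <;> simp at ij e
  · exact h a b n ab e
  · exact h (a - b) (-b) n (by omega) (by rw [← e, s]; push_cast; ring)
  · exact h b a n ab.symm (by rw [← e]; ring)
  · exact h (-b) (a - b) n (by omega) (by rw [← e, s]; push_cast; ring)
  · exact h (b - a) (-a) n (by omega) (by rw [← e, s]; push_cast; ring)
  · exact h (-a) (b - a) n (by omega) (by rw [← e, s]; push_cast; ring)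

variable {t : ℕ}

def K (i : Fin t) : Set E := {p | 0 ≤ co p 1 - (i + 1) ∧ co p 1 - (i + 1) ≤ co p 0 - 2 * (i + 1) ∧
  (i : ℝ) ≤ t * (2 * co p 0 + co p 1 - 5 * (i + 1)) ∧ t * (2 * co p 0 + co p 1 - 5 * (i + 1)) ≤ i + 1}

theorem K_le {i : Fin t} {p : E} (h : p ∈ K i) : 2 * co p 0 + co p 1 - 5 * (i + 1) ≤ 1 := by
  have a : (i : ℝ) + 1 ≤ t := by exact_mod_cast i.2
  have b : (0 : ℝ) < t := by exact_mod_cast i.pos
  exact le_of_mul_le_mul_left (by linarith [h.2.2.2]) b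

theorem K_norm {i : Fin t} {p : E} (h : p ∈ K i) :
    7 * ((i : ℝ) + 1) ^ 2 ≤ ‖p‖ ^ 2 ∧ ‖p‖ ^ 2 < 7 * (i + 2) ^ 2 := by
  have a := nsq p
  have s : co p 2 = -co p 0 - co p 1 := by linarith [co_sum p]
  have b := K_le h
  obtain ⟨c, d, -⟩ := h
  have e : (0 : ℝ) ≤ i := by positivity
  rw [Fin.sum_univ_three, s] at a
  generalize co p 0 = x, co p 1 = y, (i : ℝ) = k at *
  obtain ⟨u, rfl⟩ : ∃ u, x = u + 2 * (k + 1) := ⟨x - 2 * (k + 1), by ring⟩
  obtain ⟨w, rfl⟩ : ∃ w, y = w + (k + 1) := ⟨y - (k + 1), by ring⟩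
  constructor <;> nlinarith [mul_nonneg e c]

theorem co_cont (j : Fin 3) : Continuous fun p => co p j := by
  fin_cases j <;> simp only [co] <;> simp <;> fun_prop

theorem K_closed (i : Fin t) : IsClosed (K i) := by
  have := co_cont 0
  have := co_cont 1
  simp only [K, ofPred_and]
  refine .inter ?_ (.inter ?_ (.inter ?_ ?_)) <;> exact isClosed_le (by fun_prop) (by fun_prop)

theorem K_bdd (i : Fin t) : Bornology.IsBounded (K i) :=
  (isBounded_closedBall (x := (0 : E)) (r := 3 * (i + 2))).subset fun p hp => by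
    rw [mem_closedBall_zero_iff]
    exact le_of_sq_le_sq (by nlinarith [(K_norm hp).2]) (by positivity)

theorem K_int (i : Fin t) : (interior (K i)).Nonempty := by
  have := co_cont 0
  have := co_cont 1
  have b : (0 : ℝ) < t := by exact_mod_cast i.pos
  have c : (0 : ℝ) < (i + 1 / 2) / t := by positivity
  refine ⟨pt ![2 * (i + 1) + 2 / 5 * ((i + 1 / 2) / t), i + 1 + 1 / 5 * ((i + 1 / 2) / t),
    -3 * (i + 1) - 3 / 5 * ((i + 1 / 2) / t)], interior_maximal (t := {p | 0 < co p 1 - (i + 1) ∧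
      co p 1 - (i + 1) < co p 0 - 2 * (i + 1) ∧ (i : ℝ) < t * (2 * co p 0 + co p 1 - 5 * (i + 1)) ∧
      t * (2 * co p 0 + co p 1 - 5 * (i + 1)) < i + 1})
    (fun p ⟨a, b, c, d⟩ => And.intro a.le ⟨b.le, c.le, d.le⟩) ?_ ?_⟩
  · simp only [ofPred_and]
    refine .inter ?_ (.inter ?_ (.inter ?_ ?_)) <;> exact isOpen_lt (by fun_prop) (by fun_prop)
  · have d : (t : ℝ) * ((i + 1 / 2) / t) = i + 1 / 2 := by field_simp
    rw [mem_ofPred_eq, co_pt (by simp; ring)]
    simp only [Matrix.cons_val_zero, Matrix.cons_val_one]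
    refine ⟨?_, ?_, ?_, ?_⟩ <;> linarith

theorem K_disk (i : Fin t) : Nonempty (K i ≃ₜ closedBall (0 : E) 1) := by
  have hc : Convex ℝ (K i) := fun p ⟨a, b, c, d⟩ q ⟨a', b', c', d'⟩ u v hu hv uv => by
    have e : ∀ j, co (u • p + v • q) j = u * co p j + v * co q j := fun j => by
      fin_cases j <;> simp [co] <;> ring
    obtain rfl : v = 1 - u := by linarith
    simp only [K, mem_ofPred_eq, e]
    refine ⟨?_, ?_, ?_, ?_⟩
    · nlinarith [mul_nonneg hu a, mul_nonneg hv a']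
    · nlinarith [mul_le_mul_of_nonneg_left b hu, mul_le_mul_of_nonneg_left b' hv]
    · nlinarith [mul_le_mul_of_nonneg_left c hu, mul_le_mul_of_nonneg_left c' hv]
    · nlinarith [mul_le_mul_of_nonneg_left d hu, mul_le_mul_of_nonneg_left d' hv]
  obtain ⟨f, -, h, -⟩ := exists_homeomorph_image_interior_closure_frontier_eq_unitBall hc (K_int i)
    (K_bdd i)
  rw [(K_closed i).closure_eq] at h
  exact ⟨h ▸ f.image _⟩

def C (j : H × Fin t) : Set E := F j.1 ⁻¹' K j.2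

def T0 (t : ℕ) : Set E := ⋃ j : H × Fin t, C j

theorem F_C (g : H) (j : H × Fin t) : F g '' C j = C (g⁻¹ * j.1, j.2) := by
  rw [← (F g).preimage_symm]
  ext p
  exact iff_of_eq (congrArg (· ∈ K j.2) (F0_F0 j.1 g⁻¹ p))

theorem F_T0 (g : H) : F g '' T0 t = T0 t := by
  simp only [T0, image_iUnion, F_C]
  exact (((Equiv.mulLeft g⁻¹).prodCongr (Equiv.refl _)).surjective.iUnion_comp C)

theorem C_disj {i j : H × Fin t} (ne : i ≠ j) : Disjoint (C i) (C j) := by
  refine disjoint_left.mpr fun p a b => ne ?_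
  have a' : F0 i.1 p ∈ K i.2 := a
  have b' : F0 j.1 p ∈ K j.2 := b
  have x : (0 : ℝ) ≤ i.2 := by positivity
  have y : (0 : ℝ) ≤ j.2 := by positivity
  have e : i.1⁻¹ * j.1 = 1 := chamber (x := co (F0 i.1 p)) (y := co (F0 j.1 p)) _
    (fun l => by rw [← co_F0, F0_F0, mul_inv_cancel_left]) (co_sum _) (by linarith [a'.1])
    (by linarith [a'.2.1]) (by linarith [b'.1]) (by linarith [b'.2.1])
  rw [inv_mul_eq_one] at e
  rw [← e] at b'
  have h1 : (i.2 : ℝ) < j.2 + 1 := by linarith [a'.1, b'.1, b'.2.1, K_le b']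
  have h2 : (j.2 : ℝ) < i.2 + 1 := by linarith [a'.1, b'.1, a'.2.1, K_le a']
  norm_cast at h1 h2
  exact Prod.ext e (Fin.ext (by omega))

theorem T0_closed : IsClosed (T0 t) :=
  isClosed_iUnion_of_finite fun j => (K_closed _).preimage (F _).continuous

theorem fix0 (ht : 0 < t) (f : E ≃ᵢ E) (h : f '' T0 t = T0 t) : f 0 = 0 := by
  have b : Bornology.IsBounded (T0 t) := Bornology.isBounded_iUnion.mpr fun j =>
    (F _).isometry.antilipschitz.isBounded_preimage (K_bdd _)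
  obtain ⟨q, hq⟩ := K_int (⟨0, ht⟩ : Fin t)
  obtain ⟨x, hx, m⟩ := (isCompact_of_isClosed_isBounded T0_closed b).exists_isMaxOn
    ⟨(F 1).symm q, mem_iUnion.mpr ⟨(1, ⟨0, ht⟩), by simpa [C] using interior_subset hq⟩⟩
    continuous_norm.continuousOn
  have n : F (1, -1) x = -x := co_inj fun i => by
    rw [← zero_sub x, co_sub]
    refine (co_F0 _ _ _).trans ?_
    fin_cases i <;> simp [co]
  have hx' : -x ∈ T0 t := by
    rw [← n, ← F_T0 (1, -1)]
    exact mem_image_of_mem _ hx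
  have a1 : ‖f x‖ ≤ ‖x‖ := m (h ▸ mem_image_of_mem f hx)
  have a2 : ‖f (-x)‖ ≤ ‖x‖ := m (h ▸ mem_image_of_mem f hx')
  have a3 := parallelogram_law_with_norm ℝ (f x) (f (-x))
  have a4 : ‖f x - f (-x)‖ = 2 * ‖x‖ := by
    rw [← dist_eq_norm, f.dist_eq, dist_eq_norm, sub_neg_eq_add, ← two_smul ℝ, norm_smul]
    simp
  have a5 : f x + f (-x) = (2 : ℝ) • f 0 := by
    have := f.map_midpoint x (-x)
    rw [midpoint_self_neg, midpoint_eq_smul_add] at this
    simp [this]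
  rw [a4, a5, norm_smul] at a3
  simp only [Real.norm_ofNat] at a3
  have := norm_nonneg (f x)
  have := norm_nonneg (f (-x))
  exact norm_eq_zero.mp (pow_eq_zero_iff two_ne_zero |>.mp (by nlinarith [sq_nonneg ‖f 0‖]))

noncomputable def V (μ : Fin 3 → ℤ) : E := pt fun i => μ i

def Tl (t : ℕ) (μ : Fin 3 → ℤ) : Set E := (V μ + ·) '' T0 t

def TT (t : ℕ) : Set (Set E) := Tl t '' {μ | μ 0 + μ 1 + μ 2 = 0}

theorem co_V {μ : Fin 3 → ℤ} (h : μ 0 + μ 1 + μ 2 = 0) (i : Fin 3) : co (V μ) i = μ i := by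
  rw [V, co_pt (by exact_mod_cast h)]

theorem V_add (μ ν : Fin 3 → ℤ) : V (μ + ν) = V μ + V ν := by
  ext k
  fin_cases k <;> simp [V, pt] <;> ring

theorem V_zero : V 0 = 0 := by
  ext k
  fin_cases k <;> simp [V, pt]

theorem sym_of {T : Set (Set E)} {f : E ≃ᵢ E} (h : ∀ A ∈ T, f '' A ∈ T)
    (h' : ∀ A ∈ T, f.symm '' A ∈ T) : Sym T f :=
  (image_subset_iff.mpr h).antisymm fun A a => ⟨_, h' A a, by simp [image_image]⟩

theorem add_Tl (μ ν : Fin 3 → ℤ) : (V μ + ·) '' Tl t ν = Tl t (μ + ν) := by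
  simp only [Tl, image_image, V_add, add_assoc]

theorem sym_add {μ : Fin 3 → ℤ} (h : μ 0 + μ 1 + μ 2 = 0) :
    Sym (TT t) (IsometryEquiv.addLeft (V μ)) := by
  refine sym_of ?_ ?_ <;> rintro _ ⟨ν, hν, rfl⟩ <;> simp only [mem_ofPred_eq] at hν
  · exact ⟨μ + ν, by simp; omega, (add_Tl _ _).symm⟩
  · have : V (-μ) = -V μ := by rw [eq_neg_iff_add_eq_zero, ← V_add, neg_add_cancel, V_zero]
    refine ⟨-μ + ν, by simp; omega, ?_⟩
    rw [← add_Tl, this]
    rfl

theorem sym_F (g : H) : Sym (TT t) (F g) := by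
  have : ∀ g : H, ∀ A ∈ TT t, F g '' A ∈ TT t := by
    rintro g _ ⟨ν, hν, rfl⟩
    have s : (g.2 : ℤ) * ν (g.1 0) + g.2 * ν (g.1 1) + g.2 * ν (g.1 2) = 0 := by
      rw [← mul_add, ← mul_add, psum, hν, mul_zero]
    refine ⟨fun i => g.2 * ν (g.1 i), s, ?_⟩
    rw [Tl, ← F_T0 g, Tl, image_image, image_image]
    refine image_congr fun p _ => co_inj fun i => ?_
    change _ = co (F0 _ _) i
    rw [co_add, Pi.add_apply, co_V s, co_F0, co_add, Pi.add_apply, co_V hν]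
    change _ + co (F0 _ _) i = _
    rw [co_F0]
    push_cast
    ring
  exact sym_of (this g) (this g⁻¹)

theorem mem_Tl {μ : Fin 3 → ℤ} {p : E} : p ∈ Tl t μ ↔ ∃ g i, F0 g (p - V μ) ∈ K (t := t) i := by
  simp only [Tl, image_add_left, mem_preimage, T0, mem_iUnion, Prod.exists, neg_add_eq_sub]
  exact ⟨fun ⟨a, b, i, h⟩ => ⟨a, b, i, h⟩, fun ⟨a, b, i, h⟩ => ⟨a, b, i, h⟩⟩

def lam (i : Fin t) : Fin 3 → ℤ := ![2 * (i + 1), i + 1, -3 * (i + 1)]

theorem cover (ht : 0 < t) (p : E) : ∃ A ∈ TT t, p ∈ A := by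
  obtain ⟨ν, s, hν⟩ : ∃ ν : Fin 3 → ℤ, ν 0 + ν 1 + ν 2 = 0 ∧
      ∀ i j, co p i - ν i - (co p j - ν j) ≤ 1 := by
    have s : co p 2 = -co p 0 - co p 1 := by linarith [co_sum p]
    have key : ∀ a b : ℤ, |co p 0 - a - (co p 1 - b)| ≤ 1 → |2 * (co p 0 - a) + (co p 1 - b)| ≤ 1 →
        |co p 0 - a + 2 * (co p 1 - b)| ≤ 1 → ∃ ν : Fin 3 → ℤ, ν 0 + ν 1 + ν 2 = 0 ∧
        ∀ i j, co p i - ν i - (co p j - ν j) ≤ 1 := fun a b x y z => ⟨![a, b, -a - b], by simp,
      fun i j => by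
        rw [abs_le] at x y z
        fin_cases i <;> fin_cases j <;> simp [s] <;> linarith⟩
    have := Int.floor_le (co p 0)
    have := Int.floor_le (co p 1)
    have := Int.lt_floor_add_one (co p 0)
    have := Int.lt_floor_add_one (co p 1)
    generalize ⌊co p 0⌋ = a, ⌊co p 1⌋ = b at *
    rcases le_total (co p 0 - a) (co p 1 - b) with h | h
    · rcases le_total (co p 0 - a + 2 * (co p 1 - b)) 1 with h1 | h1
      · refine key a b ?_ ?_ ?_ <;> rw [abs_le] <;> constructor <;> linarith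
      · rcases le_total (2 * (co p 0 - a) + (co p 1 - b)) 2 with h2 | h2
        · refine key a (b + 1) ?_ ?_ ?_ <;> rw [abs_le] <;> push_cast <;> constructor <;> linarith
        · refine key (a + 1) (b + 1) ?_ ?_ ?_ <;> rw [abs_le] <;> push_cast <;> constructor <;>
            linarith
    · rcases le_total (2 * (co p 0 - a) + (co p 1 - b)) 1 with h1 | h1
      · refine key a b ?_ ?_ ?_ <;> rw [abs_le] <;> constructor <;> linarith
      · rcases le_total (co p 0 - a + 2 * (co p 1 - b)) 2 with h2 | h2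
        · refine key (a + 1) b ?_ ?_ ?_ <;> rw [abs_le] <;> push_cast <;> constructor <;> linarith
        · refine key (a + 1) (b + 1) ?_ ?_ ?_ <;> rw [abs_le] <;> push_cast <;> constructor <;>
            linarith
  have hz : ∀ i j, co (p - V ν) i - co (p - V ν) j ≤ 1 := fun i j => by
    simpa only [co_sub, Pi.sub_apply, co_V s] using hν i j
  obtain ⟨g, a, b, c⟩ : ∃ g : H, 0 ≤ co (F0 g (p - V ν)) 1 ∧
      co (F0 g (p - V ν)) 1 ≤ co (F0 g (p - V ν)) 0 ∧
      co (F0 g (p - V ν)) 0 - co (F0 g (p - V ν)) 2 ≤ 1 := by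
    generalize p - V ν = z at hz
    have m := Tuple.monotone_sort (co z)
    have m1 := m (show (0 : Fin 3) ≤ 1 by decide)
    have m2 := m (show (1 : Fin 3) ≤ 2 by decide)
    simp only [Function.comp] at m1 m2
    have m3 := hz (Tuple.sort (co z) 2) (Tuple.sort (co z) 0)
    rcases le_total (co z (Tuple.sort (co z) 1)) 0 with h | h
    · exact ⟨(Tuple.sort (co z), -1), by simpa [co_F0] using ⟨h, m1, by linarith⟩⟩
    · exact ⟨(Tuple.sort (co z) * swap 0 2, 1), by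
        simpa [co_F0, swap_apply_of_ne_of_ne] using ⟨h, m2, by linarith⟩⟩
  have s2 := co_sum (F0 g (p - V ν))
  obtain ⟨i, d, e⟩ : ∃ i : Fin t, (i : ℝ) ≤ t * (2 * co (F0 g (p - V ν)) 0 + co (F0 g (p - V ν)) 1) ∧
      t * (2 * co (F0 g (p - V ν)) 0 + co (F0 g (p - V ν)) 1) ≤ i + 1 := by
    have h0 : 0 ≤ 2 * co (F0 g (p - V ν)) 0 + co (F0 g (p - V ν)) 1 := by linarith
    have h1 : 2 * co (F0 g (p - V ν)) 0 + co (F0 g (p - V ν)) 1 ≤ 1 := by linarith
    generalize 2 * co (F0 g (p - V ν)) 0 + co (F0 g (p - V ν)) 1 = τ at *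
    have h2 : 0 ≤ t * τ := by positivity
    by_cases q : ⌊t * τ⌋₊ < t
    · exact ⟨⟨_, q⟩, Nat.floor_le h2, (Nat.lt_floor_add_one _).le⟩
    · refine ⟨⟨t - 1, by omega⟩, ?_, ?_⟩ <;> simp only [Nat.cast_pred ht]
      · linarith [(Nat.le_floor_iff h2).mp (not_lt.mp q)]
      · nlinarith [(Nat.cast_nonneg t : (0 : ℝ) ≤ t)]
  have sl : lam i (g.1⁻¹ 0) + lam i (g.1⁻¹ 1) + lam i (g.1⁻¹ 2) = 0 := by
    rw [psum]
    simp [lam]
    ring
  have s3 : (ν 0 - g.2 * lam i (g.1⁻¹ 0)) + (ν 1 - g.2 * lam i (g.1⁻¹ 1)) +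
      (ν 2 - g.2 * lam i (g.1⁻¹ 2)) = 0 := by linear_combination s - g.2 * sl
  refine ⟨_, ⟨fun l => ν l - g.2 * lam i (g.1⁻¹ l), s3, rfl⟩, mem_Tl.mpr ⟨g, i, ?_⟩⟩
  have : ∀ l, co (F0 g (p - V fun l => ν l - g.2 * lam i (g.1⁻¹ l))) l =
      co (F0 g (p - V ν)) l + lam i l := fun l => by
    simp only [co_F0, co_sub, Pi.sub_apply, co_V s,
      co_V (μ := fun l => ν l - g.2 * lam i (g.1⁻¹ l)) s3]
    rcases Int.units_eq_one_or g.2 with e | e <;> simp [e] <;> ring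
  simp only [K, mem_ofPred_eq, this]
  simp only [lam, Matrix.cons_val_zero, Matrix.cons_val_one]
  push_cast
  refine ⟨?_, ?_, ?_, ?_⟩ <;> linarith

theorem uniq {p : E} (hp : Gen p) {μ ν : Fin 3 → ℤ} (sμ : μ 0 + μ 1 + μ 2 = 0)
    (sν : ν 0 + ν 1 + ν 2 = 0) (a : p ∈ Tl t μ) (b : p ∈ Tl t ν) : μ = ν := by
  have main : ∀ μ : Fin 3 → ℤ, μ 0 + μ 1 + μ 2 = 0 → p ∈ Tl t μ → ∃ (g : H) (i : Fin t)
      (κ : Fin 3 → ℤ) (d : E), κ 0 + κ 1 + κ 2 = 0 ∧ (∀ l, κ l = μ l + g.2 * lam i (g.1⁻¹ l)) ∧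
      d = F0 g (p - V κ) ∧ 0 < co d 1 ∧ co d 1 < co d 0 ∧ co d 0 - co d 2 < 1 ∧
      (i : ℝ) < t * (co d 0 - co d 2) ∧ t * (co d 0 - co d 2) < i + 1 := fun μ s h => by
    obtain ⟨g, i, h⟩ := mem_Tl.mp h
    have sl : lam i (g.1⁻¹ 0) + lam i (g.1⁻¹ 1) + lam i (g.1⁻¹ 2) = 0 := by
      rw [psum]
      simp [lam]
      ring
    have s3 : (μ 0 + g.2 * lam i (g.1⁻¹ 0)) + (μ 1 + g.2 * lam i (g.1⁻¹ 1)) +
        (μ 2 + g.2 * lam i (g.1⁻¹ 2)) = 0 := by linear_combination s + g.2 * sl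
    refine ⟨g, i, fun l => μ l + g.2 * lam i (g.1⁻¹ l), _, s3, fun _ => rfl, rfl, ?_⟩
    have e : ∀ l, co (F0 g (p - V μ)) l =
        co (F0 g (p - V fun l => μ l + g.2 * lam i (g.1⁻¹ l))) l + lam i l := fun l => by
      simp only [co_F0, co_sub, Pi.sub_apply, co_V s,
        co_V (μ := fun l => μ l + g.2 * lam i (g.1⁻¹ l)) s3]
      rcases Int.units_eq_one_or g.2 with e | e <;> simp [e] <;> ring
    change (fun l => μ l + g.2 * lam i (g.1⁻¹ l)) 0 + (fun l => μ l + g.2 * lam i (g.1⁻¹ l)) 1 +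
      (fun l => μ l + g.2 * lam i (g.1⁻¹ l)) 2 = 0 at s3
    generalize (fun l => μ l + g.2 * lam i (g.1⁻¹ l)) = κ at *
    have G : ∀ l m, l ≠ m → ∀ a b n : ℤ, (a ≠ 0 ∨ b ≠ 0) →
        a * co (F0 g (p - V κ)) l + b * co (F0 g (p - V κ)) m ≠ n := fun l m lm a b n ab z => by
      simp only [co_F0, co_sub, Pi.sub_apply, co_V s3] at z
      refine hp.ne (g.1.injective.ne lm) (a := a * g.2) (b := b * g.2) (by simpa using ab)
        (n + a * g.2 * κ (g.1 l) + b * g.2 * κ (g.1 m)) ?_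
      push_cast
      linarith
    have k := K_le h
    have s2 := co_sum (F0 g (p - V κ))
    simp only [K, mem_ofPred_eq, e] at h k
    simp only [lam, Matrix.cons_val_zero, Matrix.cons_val_one] at h k
    push_cast at h k
    have tp : (t : ℤ) ≠ 0 := by have := i.pos; omega
    have g1 := G 1 0 (by decide) 1 0 0 (by simp)
    have g2 := G 1 0 (by decide) 1 (-1) 0 (by simp)
    have g3 := G 0 2 (by decide) 1 (-1) 1 (by simp)
    have g4 := G 0 2 (by decide) t (-t) i (Or.inl tp)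
    have g5 := G 0 2 (by decide) t (-t) (i + 1) (Or.inl tp)
    push_cast at g1 g2 g3 g4 g5
    generalize co (F0 g (p - V κ)) 0 = x, co (F0 g (p - V κ)) 1 = y, co (F0 g (p - V κ)) 2 = z at *
    obtain rfl : z = -x - y := by linarith
    refine ⟨lt_of_le_of_ne (by linarith) fun z => g1 (by linarith),
      lt_of_le_of_ne (by linarith) fun z => g2 (by linarith),
      lt_of_le_of_ne (by linarith) fun z => g3 (by linarith),
      lt_of_le_of_ne (by linarith) fun z => g4 (by linarith),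
      lt_of_le_of_ne (by linarith) fun z => g5 (by linarith)⟩
  obtain ⟨g, i, κ, d, s, e, hd, a1, a2, a3, a4, a5⟩ := main μ sμ a
  obtain ⟨g', i', κ', d', s', e', hd', b1, b2, b3, b4, b5⟩ := main ν sν b
  have dif : ∀ (g : H) (κ : Fin 3 → ℤ) (d : E), κ 0 + κ 1 + κ 2 = 0 → d = F0 g (p - V κ) →
      0 < co d 1 → co d 1 < co d 0 → co d 0 - co d 2 < 1 →
      ∀ l m, co p l - κ l - (co p m - κ m) < 1 := fun g κ d s hd a1 a2 a3 l m => by
    have s2 := co_sum d
    have : ∀ l m, co d l - co d m < 1 := fun l m => by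
      fin_cases l <;> fin_cases m <;> simp <;> linarith
    have x := this (g.1⁻¹ l) (g.1⁻¹ m)
    have y := this (g.1⁻¹ m) (g.1⁻¹ l)
    simp only [hd, co_F0, co_sub, Pi.sub_apply, co_V s, Perm.coe_inv, apply_symm_apply] at x y
    rcases Int.units_eq_one_or g.2 with e | e <;> simp [e] at x y <;> linarith
  have z : ∀ l m, κ l - κ' l - (κ m - κ' m) < 2 := fun l m => by
    have : ((κ l - κ' l - (κ m - κ' m) : ℤ) : ℝ) < 2 := by
      push_cast
      linarith [dif g κ d s hd a1 a2 a3 m l, dif g' κ' d' s' hd' b1 b2 b3 l m]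
    exact_mod_cast this
  obtain rfl : κ = κ' := by
    have := z 0 1
    have := z 0 2
    have := z 1 0
    have := z 1 2
    have := z 2 0
    have := z 2 1
    ext l
    fin_cases l <;> simp <;> omega
  have e1 : g⁻¹ * g' = 1 := chamber (x := co d) (y := co d') _
    (fun l => by rw [← co_F0, hd, F0_F0, mul_inv_cancel_left, hd']) (co_sum _) a1 a2 b1.le b2.le
  obtain rfl := inv_mul_eq_one.mp e1
  rw [← hd] at hd'
  subst hd'
  have h1 : (i : ℝ) < i' + 1 := by linarith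
  have h2 : (i' : ℝ) < i + 1 := by linarith
  norm_cast at h1 h2
  obtain rfl : i = i' := Fin.ext (by omega)
  ext l
  linarith [e l, e' l]

theorem result : {t : ℕ | 0 < t ∧ ∃ T, ClassTiling (12 * t) t T} = {t | 0 < t} := by
  refine Subset.antisymm (fun t h => h.1) fun t (ht : 0 < t) => ⟨ht, TT t, ⟨(to_countable _).image _,
    ?_, eq_univ_of_forall (cover ht), ?_⟩, ?_, ?_⟩
  · rintro _ ⟨μ, -, rfl⟩
    exact (Homeomorph.addLeft (V μ)).isClosedMap _ T0_closed
  · rintro _ ⟨μ, a, rfl⟩ _ ⟨ν, b, rfl⟩ ne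
    refine disjoint_iff_inter_eq_empty.mpr (not_nonempty_iff_eq_empty.mp fun h => ne ?_)
    obtain ⟨p, x, y⟩ := gen.inter_open_nonempty _ (isOpen_interior.inter isOpen_interior) h
    rw [uniq y a b (interior_subset x.1) (interior_subset x.2)]
  · rintro _ ⟨μ, a, rfl⟩ _ ⟨ν, b, rfl⟩
    simp only [mem_ofPred_eq] at a b
    exact ⟨_, sym_add (μ := ν - μ) (by simp; omega), (add_Tl _ _).trans (by simp)⟩
  · rintro _ ⟨μ, a, rfl⟩
    refine Cl.map (A := T0 t) ?_ (sym_add a)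
    let e := (Fintype.equivFinOfCardEq (α := H × Fin t) (n := 12 * t) (by
      simp [Fintype.card_perm, Nat.factorial])).symm
    refine ⟨fun i => C (e i), fun i => ⟨?_⟩, fun i j ne => C_disj (e.injective.ne ne),
      (e.surjective.iUnion_comp C).symm, fun i => (e i).2,
      Prod.snd_surjective.comp e.surjective, fun i j => ⟨fun h => ?_, ?_⟩⟩
    · exact (Homeomorph.setCongr (congrFun (F _).image_symm _).symm).trans
        (((F _).symm.toHomeomorph.image _).symm.trans (K_disk _).some)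
    · refine ⟨F ((e i).1 * (e j).1⁻¹), sym_F _, F_T0 _, ?_⟩
      rw [F_C]
      congr 1
      exact Prod.ext (by simp) h
    · rintro ⟨f, -, h, h'⟩
      obtain ⟨q, hq⟩ := K_int (e i).2
      have a : (F (e i).1).symm q ∈ C (e i) := by simpa [C] using interior_subset hq
      have b : f _ ∈ C (e j) := h' ▸ mem_image_of_mem f a
      generalize (F (e i).1).symm q = p at *
      have n : ‖f p‖ = ‖p‖ := by simpa [fix0 ht f h] using f.dist_eq p 0
      have a' := K_norm (p := F0 _ _) a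
      have b' := K_norm (p := F0 _ _) b
      rw [F0_norm] at a' b'
      rw [n] at b'
      have h1 : ((e i).2 : ℝ) + 1 < (e j).2 + 2 :=
        lt_of_pow_lt_pow_left₀ 2 (by positivity) (by linarith)
      have h2 : ((e j).2 : ℝ) + 1 < (e i).2 + 2 :=
        lt_of_pow_lt_pow_left₀ 2 (by positivity) (by linarith)
      norm_cast at h1 h2
      exact Fin.ext (show (e i).2.1 = (e j).2.1 by omega)

end Pool.Agent.Results.MP_2d2d9d_co.All
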